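import Pool.Agent.Helper99.ZS.Lib

set_option autoImplicit false

/-!
MP_98699e_co, module REAL: embeddings of rooted trees give embeddings of the tree with the same
colour sum.
-/

open Finset

noncomputable section

namespace ZS

theorem real_filter {τ : Type} [Fintype τ] [DecidableEq τ] (T : SimpleGraph τ)
    [DecidableRel T.Adj] {I J : Finset τ} {r r' : τ} (hr' : r' ∈ I) (hr : r ∈ J)
    (hadj : T.Adj r r') (hc : ∀ x ∈ I, ∀ y ∈ J, T.Adj x y → x = r' ∧ y = r) :
    (T.edgeFinset.filter fun e => ∀ a ∈ e, a ∈ I ∪ J) =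
      insert s(r, r') ((T.edgeFinset.filter fun e => ∀ a ∈ e, a ∈ I) ∪
        (T.edgeFinset.filter fun e => ∀ a ∈ e, a ∈ J)) := by
  ext e
  induction e using Sym2.ind with
  | _ x y =>
    simp only [mem_filter, SimpleGraph.mem_edgeFinset, SimpleGraph.mem_edgeSet, Sym2.mem_iff,
      mem_union, mem_insert, forall_eq_or_imp, forall_eq]
    constructor
    · rintro ⟨hxy, hx | hx, hy | hy⟩
      · exact Or.inr (Or.inl ⟨hxy, hx, hy⟩)
      · obtain ⟨h1, h2⟩ := hc x hx y hy hxy
        subst h1; subst h2
        exact Or.inl Sym2.eq_swap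
      · obtain ⟨h1, h2⟩ := hc y hy x hx hxy.symm
        subst h1; subst h2
        exact Or.inl rfl
      · exact Or.inr (Or.inr ⟨hxy, hx, hy⟩)
    · rintro (h | ⟨hxy, hx, hy⟩ | ⟨hxy, hx, hy⟩)
      · rcases Sym2.eq_iff.1 h with ⟨h1, h2⟩ | ⟨h1, h2⟩
        · subst h1; subst h2
          exact ⟨hadj, Or.inr hr, Or.inl hr'⟩
        · subst h1; subst h2
          exact ⟨hadj.symm, Or.inl hr', Or.inr hr⟩
      · exact ⟨hxy, Or.inl hx, Or.inl hy⟩
      · exact ⟨hxy, Or.inr hx, Or.inr hy⟩

theorem st_REAL : ST_REAL := by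
  intro τ V _ _ _ _ T _ p h C hC t I r hcode
  induction hcode with
  | nil r =>
    refine ⟨by simp, by simp [RT.e], ?_⟩
    rintro s u φ x ⟨hφ, hx⟩
    refine ⟨fun _ => u, rfl, ?_, ?_, ?_, ?_⟩
    · intro a ha har
      exact absurd (mem_singleton.1 ha) har
    · intro a ha b hb _
      rw [Finset.mem_coe, mem_singleton] at ha hb
      rw [ha, hb]
    · intro a ha b hb hab
      rw [mem_singleton] at ha hb
      rw [ha, hb] at hab
      exact absurd hab (T.loopless.irrefl r)
    · rw [hx]
      refine sum_eq_zero fun e he => ?_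
      exfalso
      rw [mem_filter, SimpleGraph.mem_edgeFinset] at he
      obtain ⟨h1, h2⟩ := he
      induction e using Sym2.ind with
      | _ x y =>
        have hx' := h2 x (Sym2.mem_mk_left x y)
        have hy' := h2 y (Sym2.mem_mk_right x y)
        rw [mem_singleton] at hx' hy'
        rw [hx', hy', SimpleGraph.mem_edgeSet] at h1
        exact T.loopless.irrefl r h1
  | cons a b I J r r' ha hb hdis hadj hcr iha ihb =>
    obtain ⟨hr', hI, iha⟩ := iha
    obtain ⟨hr, hJ, ihb⟩ := ihb
    refine ⟨mem_union_right _ hr, ?_, ?_⟩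
    · rw [card_union_of_disjoint hdis, hI, hJ, RT.e]
      ring
    rintro s u φ x ⟨w, φa, φb, y, z, hw, hEa, hEb, huφ, hwφ, hdφ, hφ, hx⟩
    obtain ⟨fa, fa0, fa1, fa2, fa3, fa4⟩ := iha (!s) w φa y hEa
    obtain ⟨fb, fb0, fb1, fb2, fb3, fb4⟩ := ihb s u φb z hEb
    have hJI : ∀ v ∈ J, v ∉ I := fun v hv hv' => (Finset.disjoint_left.1 hdis) hv' hv
    have hw' : if s = true then h.B u w else h.B w u := by
      classical
      have := hw
      unfold Host.N at this
      exact (mem_filter.1 this).2
    have huw : u ≠ w := by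
      split_ifs at hw' with hs
      · exact h.ne _ _ hw'
      · exact (h.ne _ _ hw').symm
    set f : τ → V := fun v => if v ∈ I then fa v else fb v with hf
    have fI : ∀ v ∈ I, f v = fa v := fun v hv => by simp only [hf, if_pos hv]
    have fJ : ∀ v ∈ J, f v = fb v := fun v hv => by simp only [hf, if_neg (hJI v hv)]
    have mI : ∀ v ∈ I, fa v = w ∨ fa v ∈ φa := fun v hv => by
      by_cases hvr : v = r'
      · left; rw [hvr, fa0]
      · right; exact fa1 v hv hvr
    have mJ : ∀ v ∈ J, fb v = u ∨ fb v ∈ φb := fun v hv => by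
      by_cases hvr : v = r
      · left; rw [hvr, fb0]
      · right; exact fb1 v hv hvr
    have cross : ∀ v ∈ I, ∀ v' ∈ J, fa v ≠ fb v' := by
      intro v hv v' hv' he
      rcases mI v hv with h1 | h1 <;> rcases mJ v' hv' with h2 | h2
      · exact huw (by rw [← h2, ← he, h1])
      · exact hwφ (by rw [← h1, he]; exact h2)
      · exact huφ (by rw [← h2, ← he]; exact h1)
      · exact (Finset.disjoint_left.1 hdφ) h1 (by rw [he]; exact h2)
    refine ⟨f, ?_, ?_, ?_, ?_, ?_⟩
    · rw [fJ r hr, fb0]
    · intro v hv hvr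
      rw [hφ, mem_insert, mem_union]
      rcases mem_union.1 hv with hv | hv
      · rw [fI v hv]
        rcases mI v hv with h1 | h1
        · exact Or.inl h1
        · exact Or.inr (Or.inl h1)
      · rw [fJ v hv]
        exact Or.inr (Or.inr (fb1 v hv hvr))
    · intro v hv v' hv' he
      rw [Finset.mem_coe, mem_union] at hv hv'
      rcases hv with hv | hv <;> rcases hv' with hv' | hv'
      · rw [fI v hv, fI v' hv'] at he
        exact fa2 hv hv' he
      · rw [fI v hv, fJ v' hv'] at he
        exact absurd he (cross v hv v' hv')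
      · rw [fJ v hv, fI v' hv'] at he
        exact absurd he.symm (cross v' hv' v hv)
      · rw [fJ v hv, fJ v' hv'] at he
        exact fb2 hv hv' he
    · intro v hv v' hv' hvv
      rcases mem_union.1 hv with hv | hv <;> rcases mem_union.1 hv' with hv' | hv'
      · rw [fI v hv, fI v' hv']
        exact fa3 v hv v' hv' hvv
      · obtain ⟨h1, h2⟩ := hcr v hv v' hv' hvv
        rw [fI v hv, fJ v' hv', h1, h2, fa0, fb0]
        split_ifs at hw' with hs
        · exact Or.inr hw'
        · exact Or.inl hw'
      · obtain ⟨h1, h2⟩ := hcr v' hv' v hv hvv.symm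
        rw [fJ v hv, fI v' hv', h1, h2, fa0, fb0]
        split_ifs at hw' with hs
        · exact Or.inl hw'
        · exact Or.inr hw'
      · rw [fJ v hv, fJ v' hv']
        exact fb3 v hv v' hv' hvv
    · rw [real_filter T hr' hr hadj hcr, sum_insert, sum_union, hx]
      · have e1 : ∑ e ∈ T.edgeFinset with ∀ a ∈ e, a ∈ I, C (Sym2.map f e) = y := by
          rw [← fa4]
          refine sum_congr rfl fun e he => ?_
          rw [mem_filter] at he
          congr 1
          exact Sym2.map_congr fun v hv => fI v (he.2 v hv)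
        have e2 : ∑ e ∈ T.edgeFinset with ∀ a ∈ e, a ∈ J, C (Sym2.map f e) = z := by
          rw [← fb4]
          refine sum_congr rfl fun e he => ?_
          rw [mem_filter] at he
          congr 1
          exact Sym2.map_congr fun v hv => fJ v (he.2 v hv)
        rw [e1, e2, Sym2.map_mk, hC, fJ r hr, fI r' hr', fb0, fa0, add_assoc]
      · rw [Finset.disjoint_left]
        intro e he he'
        rw [mem_filter] at he he'
        induction e using Sym2.ind with
        | _ x y =>
          exact hJI x (he'.2 x (Sym2.mem_mk_left x y)) (he.2 x (Sym2.mem_mk_left x y))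
      · rw [mem_union, mem_filter, mem_filter]
        rintro (⟨_, h1⟩ | ⟨_, h1⟩)
        · exact hJI r hr (h1 r (Sym2.mem_mk_left r r'))
        · exact hJI r' (h1 r' (Sym2.mem_mk_right r r')) hr'

end ZS
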